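import Mathlib

/-! Extension of a bounded ring homomorphism to a completion (project CT). -/

set_option autoImplicit false

namespace Pool.Agent.Y304.CT

theorem exists_ext {F M E : Type} [Field F] [NormedField M] [IsUltrametricDist M]
    [NormedField E] [CompleteSpace E] (i : F →+* M) (hi : DenseRange i) (f : F →+* E) (t : F)
    (ht0 : t ≠ 0) (ht : ‖f t‖ < 1) (h1 : ∀ x, ‖i x‖ ≤ 1 → ‖f x‖ ≤ 1) :
    ∃ κ : M →+* E, (∀ x, κ (i x) = f x) ∧ ∀ x, ‖x‖ ≤ 1 → ‖κ x‖ ≤ 1 := by
  letI : PseudoMetricSpace F := PseudoMetricSpace.induced i inferInstance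
  have hd : ∀ x y : F, dist x y = ‖i (x - y)‖ := fun x y => by
    change dist (i x) (i y) = _
    rw [dist_eq_norm, map_sub]
  have key : ∀ ε > 0, ∃ δ > 0, ∀ x : F, ‖i x‖ < δ → ‖f x‖ < ε := by
    intro ε hε
    obtain ⟨n, hn⟩ := exists_pow_lt_of_lt_one hε ht
    have hpos : 0 < ‖i (t ^ n)‖ := by
      rw [norm_pos_iff, Ne, map_eq_zero]
      exact pow_ne_zero n ht0
    refine ⟨‖i (t ^ n)‖, hpos, fun x hx => ?_⟩
    have h2 : ‖i (x / t ^ n)‖ ≤ 1 := by
      rw [map_div₀, norm_div, div_le_one hpos]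
      exact hx.le
    have h3 := h1 _ h2
    rw [map_div₀, norm_div] at h3
    have hfp : 0 < ‖f (t ^ n)‖ := by
      rw [norm_pos_iff, Ne, map_eq_zero]
      exact pow_ne_zero n ht0
    rw [div_le_one hfp] at h3
    refine h3.trans_lt ?_
    rwa [map_pow, norm_pow]
  have huc : UniformContinuous f := by
    rw [Metric.uniformContinuous_iff]
    intro ε hε
    obtain ⟨δ, hδ, h⟩ := key ε hε
    refine ⟨δ, hδ, fun a b hab => ?_⟩
    rw [dist_eq_norm, ← map_sub]
    apply h
    rwa [← hd]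
  have hui : IsUniformInducing i := ⟨rfl⟩
  have hc := (uniformContinuous_uniformly_extend hui hi huc).continuous
  let κ := IsDenseInducing.extendRingHom hui hi huc
  have hκc : Continuous κ := hc
  have hκ : ∀ x, κ (i x) = f x := fun x =>
    IsDenseInducing.extend_eq (hui.isDenseInducing hi) huc.continuous x
  refine ⟨κ, hκ, fun x hx => ?_⟩
  refine le_of_forall_pos_le_add fun ε hε => ?_
  obtain ⟨δ, hδ, hδx⟩ := Metric.continuous_iff.mp hκc x ε hε
  obtain ⟨y, hy⟩ := Metric.denseRange_iff.mp hi x (min δ 1) (lt_min hδ one_pos)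
  have h2 : ‖i y‖ ≤ 1 := by
    have h3 : i y = x + (i y - x) := by ring
    rw [h3]
    refine (IsUltrametricDist.norm_add_le_max _ _).trans (max_le hx ?_)
    rw [← dist_eq_norm, dist_comm]
    exact (hy.trans_le (min_le_right _ _)).le
  have h4 := hδx (i y) (by
    rw [dist_comm]
    exact hy.trans_le (min_le_left _ _))
  rw [hκ, dist_eq_norm] at h4
  have h5 : κ x = f y - (f y - κ x) := by ring
  rw [h5]
  refine (norm_sub_le _ _).trans ?_
  linarith [h1 y h2]

end Pool.Agent.Y304.CT
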