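import Mathlib

/-! The spectral norm on the algebraic closure of a completion of a number field. -/

set_option autoImplicit false

namespace Pool.Agent.Y304.CT

open NumberField IsDedekindDomain

section

variable {K : Type} [Field K] [NumberField K] (v : HeightOneSpectrum (𝓞 K))

/-- the completion as a nontrivially normed field -/
noncomputable abbrev nnf : NontriviallyNormedField (v.adicCompletion K) :=
  Valued.toNontriviallyNormedField (L := v.adicCompletion K) (Γ₀ := WithZero (Multiplicative ℤ))

theorem ultra : IsUltrametricDist (v.adicCompletion K) := inferInstance

theorem compl : CompleteSpace (v.adicCompletion K) := inferInstance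

theorem sp_mul (x y : AlgebraicClosure (v.adicCompletion K)) :
    spectralNorm (v.adicCompletion K) (AlgebraicClosure (v.adicCompletion K)) (x * y) =
      spectralNorm (v.adicCompletion K) (AlgebraicClosure (v.adicCompletion K)) x *
      spectralNorm (v.adicCompletion K) (AlgebraicClosure (v.adicCompletion K)) y := by
  letI := nnf v
  exact spectralAlgNorm_mul (K := v.adicCompletion K) x y

theorem sp_add (x y : AlgebraicClosure (v.adicCompletion K)) :
    spectralNorm (v.adicCompletion K) (AlgebraicClosure (v.adicCompletion K)) (x + y) ≤
      max (spectralNorm (v.adicCompletion K) (AlgebraicClosure (v.adicCompletion K)) x)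
      (spectralNorm (v.adicCompletion K) (AlgebraicClosure (v.adicCompletion K)) y) :=
  isNonarchimedean_spectralNorm x y

end

end Pool.Agent.Y304.CT
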