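import Pool.Agent.Y213.CT.Stm
import Pool.Agent.Y304.CT.Ext
import Pool.Agent.Y304.CT.Sp

/-! An embedding of `F` in the algebraic closure of `K_v` extends to the completion `F_w`
(job CT-EMB). -/

set_option autoImplicit false

namespace Pool.Agent.Y304.CT

open NumberField IsDedekindDomain Pool.Agent.Y213.CT

section

variable {K F : Type} [Field K] [NumberField K] [Field F] [NumberField F]
  (v : HeightOneSpectrum (𝓞 K))

/-- the spectral norm on the algebraic closure of the completion -/
noncomputable abbrev N (x : AlgebraicClosure (v.adicCompletion K)) : ℝ :=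
  spectralNorm (v.adicCompletion K) (AlgebraicClosure (v.adicCompletion K)) x

theorem N_zero : N v 0 = 0 := spectralNorm_zero

theorem N_one : N v 1 = 1 := spectralNorm_one

theorem N_nonneg (x : AlgebraicClosure (v.adicCompletion K)) : 0 ≤ N v x := spectralNorm_nonneg x

/-- the spectral norm as a valuation -/
noncomputable def V : Valuation (AlgebraicClosure (v.adicCompletion K)) NNReal where
  toFun x := ⟨N v x, N_nonneg v x⟩
  map_zero' := NNReal.eq (N_zero v)
  map_one' := NNReal.eq (N_one v)
  map_mul' x y := NNReal.eq (sp_mul v x y)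
  map_add_le_max' x y := by
    have h := sp_add v x y
    rw [le_max_iff] at h ⊢
    exact h

theorem V_coe (x : AlgebraicClosure (v.adicCompletion K)) : ((V v x : NNReal) : ℝ) = N v x := rfl

/-- integers have norm at most one -/
theorem N_int (l : F →+* AlgebraicClosure (v.adicCompletion K)) (x : 𝓞 F) : N v (l x) ≤ 1 := by
  have h1 : IsIntegral ℤ (x : F) := x.2
  have h2 : IsIntegral ℤ (l (x : F)) := by
    obtain ⟨p, hp, hpx⟩ := h1
    refine ⟨p, hp, ?_⟩
    have h3 := congrArg l hpx
    rw [map_zero, Polynomial.hom_eval₂] at h3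
    have h4 : l.comp (algebraMap ℤ F) = algebraMap ℤ (AlgebraicClosure (v.adicCompletion K)) :=
      RingHom.ext_int _ _
    rwa [h4] at h3
  have h3 : IsIntegral (V v).integer (l (x : F)) := h2.tower_top
  have h4 := (Valuation.integer.integers (V v)).mem_of_integral h3
  exact h4

theorem N_natCast_lt : N v ((Ideal.absNorm v.asIdeal : ℕ) : AlgebraicClosure (v.adicCompletion K)) < 1 := by
  have h1 : ((Ideal.absNorm v.asIdeal : ℕ) : AlgebraicClosure (v.adicCompletion K)) =
      algebraMap (v.adicCompletion K) _ ((Ideal.absNorm v.asIdeal : ℕ) : v.adicCompletion K) := by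
    rw [map_natCast]
  rw [N, h1, spectralNorm_extends]
  have h2 := (FinitePlace.norm_lt_one_iff_mem K v ((Ideal.absNorm v.asIdeal : ℕ) : 𝓞 K)).mpr
    (Ideal.absNorm_mem v.asIdeal)
  rwa [map_natCast, map_natCast] at h2

/-- the prime ideal of `F` defined by an embedding -/
noncomputable def wpl (l : F →+* AlgebraicClosure (v.adicCompletion K)) :
    HeightOneSpectrum (𝓞 F) where
  asIdeal :=
    { carrier := {x : 𝓞 F | N v (l x) < 1}
      add_mem' := by
        intro a b ha hb
        change N v (l ((a + b : 𝓞 F) : F)) < 1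
        have e : ((a + b : 𝓞 F) : F) = (a : F) + (b : F) := rfl
        rw [e, map_add]
        exact (sp_add v _ _).trans_lt (max_lt ha hb)
      zero_mem' := by
        change N v (l ((0 : 𝓞 F) : F)) < 1
        have e : ((0 : 𝓞 F) : F) = 0 := rfl
        rw [e, map_zero, N_zero]
        exact one_pos
      smul_mem' := by
        intro c x hx
        change N v (l ((c * x : 𝓞 F) : F)) < 1
        have e : ((c * x : 𝓞 F) : F) = (c : F) * (x : F) := rfl
        rw [e, map_mul]
        change spectralNorm _ _ _ < 1
        rw [sp_mul]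
        calc _ ≤ 1 * N v (l (x : F)) := mul_le_mul_of_nonneg_right (N_int v l c) (N_nonneg v _)
          _ < 1 := by rw [one_mul]; exact hx }
  isPrime := by
    refine ⟨?_, ?_⟩
    · intro h
      rw [Ideal.eq_top_iff_one] at h
      have h1 : N v (l ((1 : 𝓞 F) : F)) < 1 := h
      have e : ((1 : 𝓞 F) : F) = 1 := rfl
      rw [e, map_one, N_one] at h1
      exact lt_irrefl _ h1
    · intro a b hab
      have h1 : N v (l ((a * b : 𝓞 F) : F)) < 1 := hab
      have e : ((a * b : 𝓞 F) : F) = (a : F) * (b : F) := rfl
      rw [e, map_mul] at h1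
      change spectralNorm _ _ _ < 1 at h1
      rw [sp_mul] at h1
      by_contra hcon
      rw [not_or] at hcon
      have ha : N v (l (a : F)) = 1 := le_antisymm (N_int v l a) (not_lt.mp hcon.1)
      have hb : N v (l (b : F)) = 1 := le_antisymm (N_int v l b) (not_lt.mp hcon.2)
      change N v (l (a : F)) * N v (l (b : F)) < 1 at h1
      rw [ha, hb, one_mul] at h1
      exact lt_irrefl _ h1
  ne_bot := by
    intro h
    have h1 : ((Ideal.absNorm v.asIdeal : ℕ) : 𝓞 F) ∈ (⊥ : Ideal (𝓞 F)) := by
      rw [← h]
      change N v (l (((Ideal.absNorm v.asIdeal : ℕ) : 𝓞 F) : F)) < 1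
      have e : (((Ideal.absNorm v.asIdeal : ℕ) : 𝓞 F) : F) = ((Ideal.absNorm v.asIdeal : ℕ) : F) :=
        rfl
      rw [e, map_natCast]
      exact N_natCast_lt v
    rw [Ideal.mem_bot, Nat.cast_eq_zero] at h1
    exact (by simpa using Ideal.absNorm_ne_zero_of_nonZeroDivisors ⟨v.asIdeal, by
      simpa using v.ne_bot⟩ : Ideal.absNorm v.asIdeal ≠ 0) h1

theorem mem_wpl (l : F →+* AlgebraicClosure (v.adicCompletion K)) (x : 𝓞 F) :
    x ∈ (wpl v l).asIdeal ↔ N v (l x) < 1 := Iff.rfl

theorem N_le_of_val (l : F →+* AlgebraicClosure (v.adicCompletion K)) (x : F)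
    (hx : ‖algebraMap F ((wpl v l).adicCompletion F) x‖ ≤ 1) : N v (l x) ≤ 1 := by
  have h1 : (wpl v l).valuation F x ≤ 1 := by
    have h2 : Valued.v (algebraMap F ((wpl v l).adicCompletion F) x) ≤ 1 :=
      Valued.toNormedField.norm_le_one_iff.mp hx
    have h3 := HeightOneSpectrum.valuedAdicCompletion_eq_valuation' (wpl v l) x
    rw [← h3]
    exact h2
  obtain ⟨n, d, hnd⟩ := (wpl v l).exists_primeCompl_mul_eq_of_integer x h1
  have hd : ¬ N v (l ((d : 𝓞 F) : F)) < 1 := d.2
  have h4 : N v (l ((d : 𝓞 F) : F)) = 1 := le_antisymm (N_int v l _) (not_lt.mp hd)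
  have h5 := congrArg (fun y => N v (l y)) hnd
  simp only [map_mul] at h5
  have h6 : N v (l x) * N v (l ((d : 𝓞 F) : F)) = N v (l (n : F)) := (sp_mul v _ _).symm.trans h5
  rw [h4, mul_one] at h6
  rw [h6]
  exact N_int v l n

end

section

variable {K F : Type} [Field K] [NumberField K] [Field F] [NumberField F]

/-- the image of a number field generates a finite extension -/
theorem exists_finite (v : HeightOneSpectrum (𝓞 K))
    (l : F →+* AlgebraicClosure (v.adicCompletion K)) :
    ∃ E : IntermediateField (v.adicCompletion K) (AlgebraicClosure (v.adicCompletion K)),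
      FiniteDimensional (v.adicCompletion K) E ∧ ∀ x, l x ∈ E := by
  obtain ⟨α, hα⟩ := Field.exists_primitive_element ℚ F
  refine ⟨IntermediateField.adjoin (v.adicCompletion K) {l α}, ?_, fun x => ?_⟩
  · exact IntermediateField.adjoin.finiteDimensional
      (Algebra.IsAlgebraic.isAlgebraic (l α)).isIntegral
  · let S : IntermediateField ℚ F :=
      Subfield.toIntermediateField
        ((IntermediateField.adjoin (v.adicCompletion K) {l α}).toSubfield.comap l) (by
          intro q
          rw [Subfield.mem_comap, eq_ratCast, map_ratCast]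
          exact SubfieldClass.ratCast_mem _ q)
    have h1 : IntermediateField.adjoin ℚ {α} ≤ S := by
      rw [IntermediateField.adjoin_simple_le_iff]
      change l α ∈ (IntermediateField.adjoin (v.adicCompletion K) {l α}).toSubfield
      exact IntermediateField.mem_adjoin_simple_self _ _
    have h2 : x ∈ S := h1 (by rw [hα]; trivial)
    exact h2

end

theorem emb : StEmb := by
  intro K F _ _ _ _ _ v l hl
  obtain ⟨E, hE, hlE⟩ := exists_finite v l
  set w := wpl v l with hw
  letI := nnf v
  letI : NormedField E := spectralNorm.normedField (v.adicCompletion K) E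
  haveI : CompleteSpace E := spectralNorm.completeSpace (v.adicCompletion K) E
  have hnE : ∀ e : E, ‖e‖ = N v (e : AlgebraicClosure (v.adicCompletion K)) := fun e =>
    spectralNorm.eq_of_tower (L := AlgebraicClosure (v.adicCompletion K)) e
  let f : F →+* E := l.codRestrict E hlE
  have hf : ∀ x, ((f x : E) : AlgebraicClosure (v.adicCompletion K)) = l x := fun _ => rfl
  have hq : Ideal.absNorm v.asIdeal ≠ 0 := by
    simpa using Ideal.absNorm_ne_zero_of_nonZeroDivisors ⟨v.asIdeal, by
      simpa using v.ne_bot⟩
  obtain ⟨κ, hκ, hκ1⟩ := exists_ext (algebraMap F (w.adicCompletion F))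
    (HeightOneSpectrum.denseRange_algebraMap F w) f ((Ideal.absNorm v.asIdeal : ℕ) : F)
    (by exact_mod_cast hq) (by
      rw [hnE, hf, map_natCast]
      exact N_natCast_lt v) (fun x hx => by
      rw [hnE, hf]
      exact N_le_of_val v l x hx)
  refine ⟨w, (E.val : E →+* AlgebraicClosure (v.adicCompletion K)).comp κ, ⟨fun x => ?_,
    fun x hx => ?_⟩, fun x => ?_⟩
  · change ((κ _ : E) : AlgebraicClosure (v.adicCompletion K)) = _
    rw [hκ, hf, hl]
  · change N v ((κ x : E) : AlgebraicClosure (v.adicCompletion K)) ≤ 1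
    rw [← hnE]
    exact hκ1 x hx
  · change ((κ _ : E) : AlgebraicClosure (v.adicCompletion K)) = _
    rw [hκ, hf]

end Pool.Agent.Y304.CT
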